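import Pool.Agent.H59.L.T66d723.W5h94.HR.Lat7
import Pool.Agent.H59.L.S8.H176.DT.H12

/-!
# Monomials with product `ϖ`, for valuations of arbitrary rank
-/

set_option autoImplicit false
set_option linter.unusedSectionVars false

universe u

namespace Pool.Agent.W5h94.HR

open Finset Pool.Agent.W418.LU2 Pool.Agent.H176.DT Pool.Agent.Y547.DT6

section value

variable {E : Type u} [Field E] (V : ValuationSubring E)

/-- The divisible hull of the value group. -/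
abbrev DH : Type u := DivisibleHull (Additive V.ValueGroupˣ)

/-- The additive valuation with values in the divisible hull. -/
noncomputable def lu : Additive Eˣ →+ DH V :=
  -((DivisibleHull.coeAddMonoidHom (M := Additive V.ValueGroupˣ)).comp
    (MonoidHom.toAdditive (Units.map V.valuation.toMonoidWithZeroHom.toMonoidHom)))

lemma lu_apply (x : Eˣ) : lu V (Additive.ofMul x) =
    -DivisibleHull.coe (Additive.ofMul (Units.map V.valuation.toMonoidWithZeroHom.toMonoidHom x)) :=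
  rfl

lemma lu_nonneg (x : Eˣ) : 0 ≤ lu V (Additive.ofMul x) ↔ V.valuation (x : E) ≤ 1 := by
  rw [lu_apply, Left.nonneg_neg_iff, ← DivisibleHull.mk_zero 1]
  change DivisibleHull.mk _ 1 ≤ _ ↔ _
  rw [DivisibleHull.mk_le_mk]
  simp only [PNat.one_coe, one_smul]
  change Units.map V.valuation.toMonoidWithZeroHom.toMonoidHom x ≤ 1 ↔ _
  rw [← Units.val_le_val]
  rfl

section abs

variable {H : Type u} [AddCommGroup H] [LinearOrder H] [IsOrderedAddMonoid H]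
  (L : Additive Eˣ →+ H) (hL : ∀ x : Eˣ, 0 ≤ L (Additive.ofMul x) ↔ V.valuation (x : E) ≤ 1)

include hL

lemma L_eq (x : Eˣ) : L (Additive.ofMul x) = 0 ↔ V.valuation (x : E) = 1 := by
  constructor
  · intro h
    have h1 := (hL x).1 h.ge
    have h2 : 0 ≤ L (Additive.ofMul x⁻¹) := by
      rw [ofMul_inv, map_neg, h, neg_zero]
    have h3 := (hL x⁻¹).1 h2
    rw [Units.val_inv_eq_inv_val, map_inv₀] at h3
    refine le_antisymm h1 ?_
    have h0 : V.valuation (x : E) ≠ 0 := (Valuation.ne_zero_iff _).2 x.ne_zero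
    rwa [inv_le_one₀ (zero_lt_iff.2 h0)] at h3
  · intro h
    refine le_antisymm ?_ ((hL x).2 h.le)
    have h2 : 0 ≤ L (Additive.ofMul x⁻¹) := by
      rw [hL, Units.val_inv_eq_inv_val, map_inv₀, h, inv_one]
    rw [ofMul_inv, map_neg] at h2
    exact neg_nonneg.1 h2

lemma L_pos (x : Eˣ) : 0 < L (Additive.ofMul x) ↔ V.valuation (x : E) < 1 := by
  rw [lt_iff_le_and_ne, lt_iff_le_and_ne, hL]
  exact and_congr Iff.rfl (not_congr (eq_comm.trans (L_eq V L hL x)))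

end abs

/-- The monomials as units. -/
noncomputable def mu {s : ℕ} {x : Fin s → E} (hx : ∀ i, x i ≠ 0) (δ : Fin s → ℤ) : Eˣ :=
  ∏ i, Units.mk0 (x i) (hx i) ^ δ i

lemma mu_coe {s : ℕ} {x : Fin s → E} (hx : ∀ i, x i ≠ 0) (δ : Fin s → ℤ) :
    (mu hx δ : E) = mo x δ := by
  unfold mu mo
  rw [Units.coe_prod]
  exact Finset.prod_congr rfl fun i _ => by rw [Units.val_zpow_eq_zpow_val, Units.val_mk0]

lemma L_mu {H : Type u} [AddCommGroup H] (L : Additive Eˣ →+ H) {s : ℕ} {x : Fin s → E}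
    (hx : ∀ i, x i ≠ 0) (δ : Fin s → ℤ) :
    L (Additive.ofMul (mu hx δ)) =
      ∑ i, δ i • L (Additive.ofMul (Units.mk0 (x i) (hx i))) := by
  unfold mu
  rw [ofMul_prod, map_sum]
  exact Finset.sum_congr rfl fun i _ => by rw [ofMul_zpow, map_zsmul]

end value

/-- The monomials with product `ϖ`. -/
theorem comb7' {E : Type u} [Field E] (V0 : ValuationSubring E)
    {H : Type u} [AddCommGroup H] [LinearOrder H] [IsOrderedAddMonoid H] [Module ℚ H]
    [IsStrictOrderedModule ℚ H] (L : Additive Eˣ →+ H)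
    (hL : ∀ x : Eˣ, 0 ≤ L (Additive.ofMul x) ↔ V0.valuation (x : E) ≤ 1)
    {s : ℕ} (x : Fin s → E)
    (hx0 : ∀ i, x i ≠ 0) (hx1 : ∀ i, V0.valuation (x i) < 1)
    (hind : ∀ δ : Fin s → ℤ, V0.valuation (mo x δ) = 1 → δ = 0)
    (γ : Fin s → ℤ) (hγ : ∃ c : Fin s → ℤ, ∑ i, c i * γ i = 1) (hγ1 : V0.valuation (mo x γ) < 1)
    (hbd : ∀ i, ∃ n : ℕ, V0.valuation (mo x γ) ^ n ≤ V0.valuation (x i)) :
    ∃ (D N0 : ℕ) (c : Fin s → ℤ), 0 < D ∧
      (∀ n : ℤ, V0.valuation (mo x γ) ≤ V0.valuation (mo x γ / mo x c ^ D) ^ n) ∧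
      ∀ N : ℕ, N0 ≤ N → 0 < N → D ∣ N → ∀ {F : Type u} [Field F] [Algebra E F]
      (V : ValuationSubring F), V.comap (algebraMap E F) = V0 →
      ∀ x' : Fin s → F,
      (∀ i, ∃ w : F, w ≠ 0 ∧ w ∈ V ∧ w⁻¹ ∈ V ∧ x' i = w * algebraMap E F (x i)) →
      ∀ ϖ : F, ϖ ^ N = mo x' γ →
      ∃ (m : Fin s → F) (A : Fin s → Fin s → ℕ), (∀ j, m j ≠ 0) ∧ (∀ j, m j ∈ V) ∧
        (∀ j, (m j)⁻¹ ∉ V) ∧ (∀ i, x' i = ∏ j, m j ^ A i j) ∧ (∀ i, ∃ j, A i j ≠ 0) ∧
        ∏ j, m j = ϖ ∧ ∀ j, ∃ (n : ℤ) (g : Fin s → ℤ), m j = ϖ ^ n * mo x' g := by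
  classical
  obtain ⟨e, he⟩ : ∃ e : Fin s → H,
    e = fun i => L (Additive.ofMul (Units.mk0 (x i) (hx0 i))) := ⟨_, rfl⟩
  have hlu : ∀ δ : Fin s → ℤ, L (Additive.ofMul (mu hx0 δ)) = ∑ i, δ i • e i := fun δ => by
    rw [L_mu, he]
  have hpos : ∀ δ : Fin s → ℤ, 0 < ∑ i, δ i • e i ↔ V0.valuation (mo x δ) < 1 := fun δ => by
    rw [← hlu, L_pos V0 L hL, mu_coe]
  have hzero : ∀ δ : Fin s → ℤ, ∑ i, δ i • e i = 0 ↔ V0.valuation (mo x δ) = 1 := fun δ => by
    rw [← hlu, L_eq V0 L hL, mu_coe]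
  have hnn : ∀ δ : Fin s → ℤ, 0 ≤ ∑ i, δ i • e i ↔ V0.valuation (mo x δ) ≤ 1 := fun δ => by
    rw [← hlu, hL, mu_coe]
  have he0 : ∀ i, 0 < e i := by
    intro i
    rw [he]
    exact (L_pos V0 L hL _).2 (hx1 i)
  have hli : LinearIndependent ℤ e := by
    rw [Fintype.linearIndependent_iff]
    intro δ hδ i
    exact congrFun (hind δ ((hzero δ).1 hδ)) i
  obtain ⟨Γ, hΓ⟩ : ∃ Γ : H, Γ = ∑ i, γ i • e i := ⟨_, rfl⟩
  have hΓ0 : 0 < Γ := by
    rw [hΓ, hpos]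
    exact hγ1
  have hsing : ∀ i, ∑ k, (Pi.single i 1 : Fin s → ℤ) k • e k = e i := by
    intro i
    rw [Finset.sum_eq_single i, Pi.single_eq_same, one_smul]
    · intro l _ hl
      rw [Pi.single_eq_of_ne hl, zero_smul]
    · exact fun h => absurd (Finset.mem_univ i) h
  have hlin : ∀ (a b : ℤ) (δ ε : Fin s → ℤ), a • ∑ i, δ i • e i + b • ∑ i, ε i • e i =
      ∑ i, (a • δ + b • ε) i • e i := by
    intro a b δ ε
    rw [Finset.smul_sum, Finset.smul_sum, ← Finset.sum_add_distrib]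
    refine Finset.sum_congr rfl fun i _ => ?_
    rw [smul_smul, smul_smul, ← add_smul]
    rfl
  have hb : ∀ i, ∃ n : ℕ, e i ≤ n • Γ := by
    intro i
    obtain ⟨n, hn⟩ := hbd i
    refine ⟨n, ?_⟩
    have h1 : 0 ≤ (n : ℤ) • ∑ i, γ i • e i + (-1 : ℤ) •
        ∑ k, (Pi.single i 1 : Fin s → ℤ) k • e k := by
      rw [hlin, hnn, mo_add hx0, mo_zs, mo_zs, mo_single, map_mul, map_zpow₀, map_zpow₀,
        zpow_natCast, zpow_neg_one]
      have h2 : V0.valuation (x i) ≠ 0 := (Valuation.ne_zero_iff _).2 (hx0 i)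
      rw [← div_eq_mul_inv, div_le_one₀ (zero_lt_iff.2 h2)]
      exact hn
    rw [hsing, ← hΓ, neg_one_smul, natCast_zsmul] at h1
    rwa [← sub_eq_add_neg, sub_nonneg] at h1
  obtain ⟨D, N0, c, hD, hc, hN⟩ := lat7 p_lat6 p_sort6 e he0 hli γ Γ hΓ hΓ0 hb
  refine ⟨D, N0, c, hD, fun n => ?_, ?_⟩
  · have h1 := hc n
    have h2 : 0 ≤ (1 : ℤ) • ∑ i, γ i • e i + (-n : ℤ) •
        ∑ i, ((1 : ℤ) • γ + (-(D : ℤ)) • c) i • e i := by
      rw [← hlin, ← hΓ, one_smul, neg_smul, neg_smul, ← sub_eq_add_neg, ← sub_eq_add_neg,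
        sub_nonneg]
      exact h1
    rw [hlin, hnn, mo_add hx0, mo_zs, mo_zs, mo_add hx0, mo_zs, mo_zs, zpow_one, zpow_neg,
      zpow_neg, zpow_natCast, map_mul, map_inv₀, map_zpow₀, ← div_eq_mul_inv,
      ← div_eq_mul_inv] at h2
    have h3 : V0.valuation (mo x γ / mo x c ^ D) ≠ 0 := (Valuation.ne_zero_iff _).2
      (div_ne_zero (mo_ne_zero hx0 _) (pow_ne_zero _ (mo_ne_zero hx0 _)))
    rwa [div_le_one₀ (zero_lt_iff.2 (zpow_ne_zero _ h3))] at h2
  intro N hN1 hNpos hDN F _ _ V hV x' hx' ϖ hϖ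
  obtain ⟨n, g, A, hn1, hn2, hn3⟩ := hN N hN1 hNpos hDN
  obtain ⟨c1, hc1⟩ := hγ
  have hNz : (N : ℤ) ≠ 0 := by omega
  have hNq : (N : ℚ) ≠ 0 := by exact_mod_cast hNpos.ne'
  -- the coordinates
  have hmul : ∀ j, (N : ℤ) • (n j • ((1 / N : ℚ) • Γ) + ∑ k, g j k • e k) =
      ∑ k, (n j • γ + (N : ℤ) • g j) k • e k := by
    intro j
    rw [← hlin, ← hΓ, smul_add]
    congr 1
    rw [smul_comm, ← Int.cast_smul_eq_zsmul ℚ (N : ℤ), smul_smul]
    push_cast
    rw [mul_one_div_cancel hNq, one_smul]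
  have hcoef : ∀ (C : Fin s → ℤ) (a : ℤ) (δ : Fin s → ℤ),
      ∑ j, C j • (n j • ((1 / N : ℚ) • Γ) + ∑ k, g j k • e k) =
        a • ((1 / N : ℚ) • Γ) + ∑ k, δ k • e k →
      ∃ u : ℤ, ∑ j, C j * n j = a + N * u ∧ ∑ j, C j • g j = δ - u • γ := by
    intro C a δ h
    have h1 : ∑ k, (∑ j, C j • (n j • γ + (N : ℤ) • g j) - (a • γ + (N : ℤ) • δ)) k • e k = 0 := by
      have h2 : (N : ℤ) • (a • ((1 / N : ℚ) • Γ) + ∑ k, δ k • e k) =
          ∑ k, (a • γ + (N : ℤ) • δ) k • e k := by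
        rw [← hlin, ← hΓ, smul_add]
        congr 1
        rw [smul_comm, ← Int.cast_smul_eq_zsmul ℚ (N : ℤ), smul_smul]
        push_cast
        rw [mul_one_div_cancel hNq, one_smul]
      have h3 : (N : ℤ) • ∑ j, C j • (n j • ((1 / N : ℚ) • Γ) + ∑ k, g j k • e k) =
          ∑ k, (∑ j, C j • (n j • γ + (N : ℤ) • g j)) k • e k := by
        rw [Finset.smul_sum]
        have h4 : ∀ j, (N : ℤ) • C j • (n j • ((1 / N : ℚ) • Γ) + ∑ k, g j k • e k) =
            ∑ k, (C j • (n j • γ + (N : ℤ) • g j)) k • e k := by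
          intro j
          rw [smul_comm, hmul j, Finset.smul_sum]
          exact Finset.sum_congr rfl fun k _ => by
            rw [Pi.smul_apply (C j), smul_eq_mul, mul_smul]
        rw [Finset.sum_congr rfl fun j _ => h4 j, Finset.sum_comm]
        refine Finset.sum_congr rfl fun k _ => ?_
        rw [Finset.sum_apply, Finset.sum_smul]
      have h5 : ∀ k, (∑ j, C j • (n j • γ + (N : ℤ) • g j) - (a • γ + (N : ℤ) • δ)) k • e k =
          (∑ j, C j • (n j • γ + (N : ℤ) • g j)) k • e k - (a • γ + (N : ℤ) • δ) k • e k :=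
        fun k => by rw [Pi.sub_apply, sub_smul]
      rw [Finset.sum_congr rfl fun k _ => h5 k, Finset.sum_sub_distrib, ← h3, ← h2, h, sub_self]
    have h2 : ∀ k, (∑ j, C j * n j - a) * γ k = N * (δ k - (∑ j, C j • g j) k) := by
      intro k
      have h3 := Fintype.linearIndependent_iff.1 hli _ h1 k
      simp only [Pi.sub_apply, Finset.sum_apply, Pi.smul_apply, Pi.add_apply, smul_eq_mul,
        mul_add] at h3 ⊢
      rw [Finset.sum_add_distrib] at h3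
      have h4 : ∑ j, C j * (n j * γ k) = (∑ j, C j * n j) * γ k := by
        rw [Finset.sum_mul]
        exact Finset.sum_congr rfl fun j _ => by ring
      have h5 : ∑ j, C j * ((N : ℤ) * g j k) = N * ∑ j, C j * g j k := by
        rw [Finset.mul_sum]
        exact Finset.sum_congr rfl fun j _ => by ring
      rw [h4, h5] at h3
      linarith
    refine ⟨∑ k, c1 k * (δ k - (∑ j, C j • g j) k), ?_, ?_⟩
    · have h3 : (∑ j, C j * n j - a) * ∑ k, c1 k * γ k =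
          N * ∑ k, c1 k * (δ k - (∑ j, C j • g j) k) := by
        rw [Finset.mul_sum, Finset.mul_sum]
        refine Finset.sum_congr rfl fun k _ => ?_
        have := h2 k
        linear_combination c1 k * this
      rw [hc1, mul_one] at h3
      linarith
    · have h3 : (∑ j, C j * n j - a) = N * ∑ k, c1 k * (δ k - (∑ j, C j • g j) k) := by
        have h4 : (∑ j, C j * n j - a) * ∑ k, c1 k * γ k =
            N * ∑ k, c1 k * (δ k - (∑ j, C j • g j) k) := by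
          rw [Finset.mul_sum, Finset.mul_sum]
          refine Finset.sum_congr rfl fun k _ => ?_
          have := h2 k
          linear_combination c1 k * this
        rwa [hc1, mul_one] at h4
      funext k
      have h4 := h2 k
      rw [h3, mul_assoc] at h4
      have h5 := mul_left_cancel₀ hNz h4
      rw [Pi.sub_apply, Pi.smul_apply, smul_eq_mul]
      linarith
  -- the field elements
  choose w hw0 hw1 hw2 hw3 using hx'
  have halg : Function.Injective (algebraMap E F) := (algebraMap E F).injective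
  have hx'0 : ∀ i, x' i ≠ 0 := by
    intro i
    rw [hw3 i]
    exact mul_ne_zero (hw0 i) ((map_ne_zero_iff _ halg).2 (hx0 i))
  have hϖ0 : ϖ ≠ 0 := by
    rintro rfl
    rw [zero_pow (by omega)] at hϖ
    exact mo_ne_zero hx'0 γ hϖ.symm
  obtain ⟨m, hm⟩ : ∃ m : Fin s → F, m = fun j => ϖ ^ n j * mo x' (g j) := ⟨_, rfl⟩
  have hm0 : ∀ j, m j ≠ 0 := fun j => by
    rw [hm]
    exact mul_ne_zero (zpow_ne_zero _ hϖ0) (mo_ne_zero hx'0 _)
  have hprod : ∀ (C : Fin s → ℤ) (a : ℤ) (δ : Fin s → ℤ),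
      ∑ j, C j • (n j • ((1 / N : ℚ) • Γ) + ∑ k, g j k • e k) =
        a • ((1 / N : ℚ) • Γ) + ∑ k, δ k • e k → ∏ j, m j ^ C j = ϖ ^ a * mo x' δ := by
    intro C a δ h
    obtain ⟨u, hu1, hu2⟩ := hcoef C a δ h
    have h1 : ∏ j, m j ^ C j = ϖ ^ (∑ j, C j * n j) * mo x' (∑ j, C j • g j) := by
      rw [zsum hϖ0, mo_sm hx'0, ← Finset.prod_mul_distrib]
      refine Finset.prod_congr rfl fun j _ => ?_
      rw [hm]
      simp only
      rw [mul_zpow, mo_zs, ← zpow_mul, mul_comm (n j)]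
    rw [h1, hu1, hu2, zpow_add₀ hϖ0, zpow_mul, zpow_natCast, hϖ, sub_eq_add_neg, mo_add hx'0,
      mo_neg, mo_zs]
    have h2 : mo x' γ ^ u ≠ 0 := zpow_ne_zero _ (mo_ne_zero hx'0 _)
    field_simp
  have hmV : ∀ k, (m k)⁻¹ ∉ V := by
    intro k hk
    obtain ⟨δ, hδ⟩ : ∃ δ : Fin s → ℤ, δ = n k • γ + (N : ℤ) • g k := ⟨_, rfl⟩
    have e1 : m k ^ N = mo x' δ := by
      rw [hm, hδ, mo_add hx'0, mo_zs, mo_zs, ← hϖ]
      simp only
      rw [mul_pow, ← zpow_natCast, ← zpow_natCast ϖ N, ← zpow_natCast (mo x' (g k)), ← zpow_mul,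
        ← zpow_mul, mul_comm (n k)]
    have e7 : V0.valuation (mo x δ) < 1 := by
      rw [← hpos, hδ, ← hmul k]
      exact zsmul_pos (hn1 k) (by omega)
    have e3 : mo x' δ = mo w δ * algebraMap E F (mo x δ) := by
      rw [map_mo', ← mo_mu]
      congr 1
      funext i
      exact hw3 i
    have e4 : (mo w δ * algebraMap E F (mo x δ))⁻¹ ∈ V := by
      rw [← e3, ← e1, ← inv_pow]
      exact pow_mem hk N
    have hwne : mo w δ ≠ 0 := mo_ne_zero hw0 δ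
    have e5 : algebraMap E F (mo x δ)⁻¹ ∈ V := by
      have f1 := V.mul_mem _ _ (mo_V V hw1 hw2 δ) e4
      rw [mul_inv, mul_inv_cancel_left₀ hwne] at f1
      rw [map_inv₀]
      exact f1
    have e6 : (mo x δ)⁻¹ ∈ V.comap (algebraMap E F) := e5
    rw [hV, ← V0.valuation_le_one_iff] at e6
    have e8 : V0.valuation (mo x δ) * V0.valuation (mo x δ)⁻¹ = 1 := by
      rw [← map_mul, mul_inv_cancel₀ (mo_ne_zero hx0 δ), map_one]
    have e9 : V0.valuation (mo x δ) * V0.valuation (mo x δ)⁻¹ ≤ V0.valuation (mo x δ) :=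
      mul_le_of_le_one_right' e6
    rw [e8] at e9
    exact absurd e7 (not_lt.2 e9)
  refine ⟨m, A, hm0, fun k => (V.mem_or_inv_mem (m k)).resolve_right (hmV k), hmV, fun i => ?_,
    fun i => ?_, ?_, fun k => ⟨n k, g k, by rw [hm]⟩⟩
  · have h1 := hprod (fun j => (A i j : ℤ)) 0 (Pi.single i 1) (by
      rw [hsing, zero_smul, zero_add]
      conv_rhs => rw [hn2 i]
      exact Finset.sum_congr rfl fun j _ => natCast_zsmul _ _)
    rw [zpow_zero, one_mul, mo_single] at h1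
    rw [← h1]
    exact Finset.prod_congr rfl fun j _ => zpow_natCast _ _
  · by_contra hcon
    push Not at hcon
    have h1 := hn2 i
    rw [Finset.sum_eq_zero fun j _ => by rw [hcon j, zero_smul]] at h1
    exact (he0 i).ne' h1
  · have h1 := hprod (fun _ => 1) 1 0 (by
      simp only [one_smul, Pi.zero_apply, zero_smul, Finset.sum_const_zero, add_zero]
      exact hn3)
    rw [zpow_one, mo_zero, mul_one] at h1
    rw [← h1]
    exact Finset.prod_congr rfl fun j _ => (zpow_one _).symm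

/-- The monomials with product `ϖ`. -/
theorem comb7 {E : Type u} [Field E] (V0 : ValuationSubring E) {s : ℕ} (x : Fin s → E)
    (hx0 : ∀ i, x i ≠ 0) (hx1 : ∀ i, V0.valuation (x i) < 1)
    (hind : ∀ δ : Fin s → ℤ, V0.valuation (mo x δ) = 1 → δ = 0)
    (γ : Fin s → ℤ) (hγ : ∃ c : Fin s → ℤ, ∑ i, c i * γ i = 1) (hγ1 : V0.valuation (mo x γ) < 1)
    (hbd : ∀ i, ∃ n : ℕ, V0.valuation (mo x γ) ^ n ≤ V0.valuation (x i)) :
    ∃ (D N0 : ℕ) (c : Fin s → ℤ), 0 < D ∧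
      (∀ n : ℤ, V0.valuation (mo x γ) ≤ V0.valuation (mo x γ / mo x c ^ D) ^ n) ∧
      ∀ N : ℕ, N0 ≤ N → 0 < N → D ∣ N → ∀ {F : Type u} [Field F] [Algebra E F]
      (V : ValuationSubring F), V.comap (algebraMap E F) = V0 →
      ∀ x' : Fin s → F,
      (∀ i, ∃ w : F, w ≠ 0 ∧ w ∈ V ∧ w⁻¹ ∈ V ∧ x' i = w * algebraMap E F (x i)) →
      ∀ ϖ : F, ϖ ^ N = mo x' γ →
      ∃ (m : Fin s → F) (A : Fin s → Fin s → ℕ), (∀ j, m j ≠ 0) ∧ (∀ j, m j ∈ V) ∧
        (∀ j, (m j)⁻¹ ∉ V) ∧ (∀ i, x' i = ∏ j, m j ^ A i j) ∧ (∀ i, ∃ j, A i j ≠ 0) ∧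
        ∏ j, m j = ϖ ∧ ∀ j, ∃ (n : ℤ) (g : Fin s → ℤ), m j = ϖ ^ n * mo x' g :=
  comb7' V0 (lu V0) (lu_nonneg V0) x hx0 hx1 hind γ hγ hγ1 hbd

end Pool.Agent.W5h94.HR
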