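import Mathlib

/-!
# Standard parts in ordered vector spaces over the rational numbers
-/

set_option autoImplicit false
set_option linter.unusedSectionVars false

namespace Pool.Agent.W5h94.HR

open Finset

variable {H : Type*} [AddCommGroup H] [LinearOrder H] [IsOrderedAddMonoid H] [Module ℚ H]
  [IsStrictOrderedModule ℚ H]

/-- The real number `x` is the standard part of `a / γ`. -/
def Sp (γ a : H) (x : ℝ) : Prop :=
  ∀ q : ℚ, ((q : ℝ) < x → q • γ ≤ a) ∧ (x < (q : ℝ) → a ≤ q • γ)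

variable {γ a b : H} {x y : ℝ}

lemma Sp.add (ha : Sp γ a x) (hb : Sp γ b y) : Sp γ (a + b) (x + y) := by
  intro q
  constructor
  · intro h
    obtain ⟨p, h1, h2⟩ := exists_rat_btwn (show (q : ℝ) - y < x by linarith)
    have h3 : ((q - p : ℚ) : ℝ) < y := by push_cast; linarith
    have := add_le_add ((ha p).1 h2) ((hb (q - p)).1 h3)
    rwa [← add_smul, add_sub_cancel] at this
  · intro h
    obtain ⟨p, h1, h2⟩ := exists_rat_btwn (show x < (q : ℝ) - y by linarith)
    have h3 : y < ((q - p : ℚ) : ℝ) := by push_cast; linarith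
    have := add_le_add ((ha p).2 h1) ((hb (q - p)).2 h3)
    rwa [← add_smul, add_sub_cancel] at this

lemma Sp.neg (ha : Sp γ a x) : Sp γ (-a) (-x) := by
  intro q
  have h := ha (-q)
  push_cast at h
  constructor
  · intro h'
    have := h.2 (by linarith)
    rw [neg_smul] at this
    exact le_neg_of_le_neg this
  · intro h'
    have := h.1 (by linarith)
    rw [neg_smul] at this
    exact neg_le_of_neg_le this

lemma Sp.zero (hγ : 0 ≤ γ) : Sp γ 0 0 := by
  intro q
  constructor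
  · intro h
    have h1 : q ≤ 0 := by exact_mod_cast h.le
    exact smul_nonpos_of_nonpos_of_nonneg h1 hγ
  · intro h
    have h1 : 0 ≤ q := by exact_mod_cast h.le
    exact smul_nonneg h1 hγ

lemma Sp.self (hγ : 0 ≤ γ) : Sp γ γ 1 := by
  intro q
  constructor
  · intro h
    have h1 : q ≤ 1 := by exact_mod_cast h.le
    calc q • γ ≤ (1 : ℚ) • γ := smul_le_smul_of_nonneg_right h1 hγ
      _ = γ := one_smul _ _
  · intro h
    have h1 : 1 ≤ q := by exact_mod_cast h.le
    calc γ = (1 : ℚ) • γ := (one_smul _ _).symm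
      _ ≤ q • γ := smul_le_smul_of_nonneg_right h1 hγ

lemma Sp.smul_pos (ha : Sp γ a x) {c : ℚ} (hc : 0 < c) : Sp γ (c • a) (c * x) := by
  have hc' : (0 : ℝ) < c := by exact_mod_cast hc
  intro q
  have e : q • γ = c • ((q / c) • γ) := by
    rw [smul_smul, mul_div_cancel₀ _ hc.ne']
  constructor
  · intro h
    rw [e]
    refine smul_le_smul_of_nonneg_left ((ha (q / c)).1 ?_) hc.le
    push_cast
    rw [div_lt_iff₀ hc']
    linarith
  · intro h
    rw [e]
    refine smul_le_smul_of_nonneg_left ((ha (q / c)).2 ?_) hc.le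
    push_cast
    rw [lt_div_iff₀ hc']
    linarith

lemma Sp.smul (hγ : 0 ≤ γ) (ha : Sp γ a x) (c : ℚ) : Sp γ (c • a) (c * x) := by
  rcases lt_trichotomy c 0 with h | h | h
  · have h1 := (ha.smul_pos (c := -c) (by linarith)).neg
    rw [neg_smul, neg_neg] at h1
    push_cast at h1
    rwa [neg_mul, neg_neg] at h1
  · subst h
    rw [zero_smul]
    push_cast
    rw [zero_mul]
    exact Sp.zero hγ
  · exact ha.smul_pos h

lemma Sp.zsmul (hγ : 0 ≤ γ) (ha : Sp γ a x) (c : ℤ) : Sp γ (c • a) (c * x) := by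
  have := ha.smul hγ (c : ℚ)
  rw [Int.cast_smul_eq_zsmul] at this
  push_cast at this
  exact this

lemma Sp.sub (ha : Sp γ a x) (hb : Sp γ b y) : Sp γ (a - b) (x - y) := by
  rw [sub_eq_add_neg, sub_eq_add_neg]
  exact ha.add hb.neg

lemma Sp.sum (hγ : 0 ≤ γ) {κ : Type*} (S : Finset κ) {f : κ → H} {z : κ → ℝ}
    (h : ∀ k ∈ S, Sp γ (f k) (z k)) : Sp γ (∑ k ∈ S, f k) (∑ k ∈ S, z k) := by
  classical
  induction S using Finset.induction_on with
  | empty => rw [Finset.sum_empty, Finset.sum_empty]; exact Sp.zero hγ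
  | insert k S hk ih =>
    rw [Finset.sum_insert hk, Finset.sum_insert hk]
    exact (h k (Finset.mem_insert_self _ _)).add
      (ih fun l hl => h l (Finset.mem_insert_of_mem hl))

lemma Sp.unique (hγ : 0 < γ) (ha : Sp γ a x) (hb : Sp γ a y) : x = y := by
  have key : ∀ {x y : ℝ}, Sp γ a x → Sp γ a y → ¬ x < y := by
    intro x y hx hy hxy
    obtain ⟨p, h1, h2⟩ := exists_rat_btwn hxy
    obtain ⟨q, h3, h4⟩ := exists_rat_btwn h2
    have h5 : q • γ ≤ p • γ := ((hy q).1 h4).trans ((hx p).2 h1)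
    have h6 : p < q := by exact_mod_cast h3
    exact absurd h5 (not_le.2 (smul_lt_smul_of_pos_right h6 hγ))
  exact le_antisymm (not_lt.1 (key hb ha)) (not_lt.1 (key ha hb))

lemma Sp.pos (hγ : 0 < γ) (ha : Sp γ a x) (hx : 0 < x) : 0 < a := by
  obtain ⟨p, h1, h2⟩ := exists_rat_btwn hx
  have h3 : 0 < p := by exact_mod_cast h1
  exact lt_of_lt_of_le (_root_.smul_pos h3 hγ) ((ha p).1 h2)

lemma Sp.nonneg (hγ : 0 < γ) (ha : Sp γ a x) (h : 0 ≤ a) : 0 ≤ x := by
  by_contra hcon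
  push Not at hcon
  have h1 := ha.neg.pos hγ (by linarith)
  exact absurd h (not_le.2 (neg_pos.1 h1))

lemma Sp.le (hγ : 0 ≤ γ) (ha : Sp γ a 0) (n : ℤ) : n • a ≤ γ := by
  have h1 := (ha.zsmul hγ n 1).2
  rw [mul_zero, one_smul] at h1
  exact h1 (by push_cast; norm_num)

lemma exists_sp (hγ : 0 < γ) {n : ℕ} (h0 : 0 ≤ a) (hn : a ≤ n • γ) : ∃ x, Sp γ a x := by
  let T : Set ℝ := {x | ∃ q : ℚ, (q : ℝ) = x ∧ q • γ ≤ a}
  have hT0 : (0 : ℝ) ∈ T := ⟨0, by push_cast; rfl, by rw [zero_smul]; exact h0⟩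
  have hTb : ∀ x ∈ T, x ≤ n := by
    rintro x ⟨q, rfl, hq⟩
    by_contra hcon
    push Not at hcon
    have h1 : (n : ℚ) < q := by exact_mod_cast hcon
    have h2 : (n : ℚ) • γ < q • γ := smul_lt_smul_of_pos_right h1 hγ
    rw [Nat.cast_smul_eq_nsmul] at h2
    exact absurd (hq.trans hn) (not_le.2 h2)
  have hB : BddAbove T := ⟨n, hTb⟩
  refine ⟨sSup T, fun q => ⟨fun h => ?_, fun h => ?_⟩⟩
  · obtain ⟨_, ⟨p, rfl, hp⟩, h1⟩ := exists_lt_of_lt_csSup ⟨0, hT0⟩ h
    have h2 : q ≤ p := by exact_mod_cast h1.le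
    exact (smul_le_smul_of_nonneg_right h2 hγ.le).trans hp
  · by_contra hcon
    push Not at hcon
    exact absurd (le_csSup hB ⟨q, rfl, hcon.le⟩) (not_le.2 h)

end Pool.Agent.W5h94.HR
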